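import Mathlib
import Pool.Agent.N77.CX.Main

/-!
# Rigidity and the reflection group trick

`Rigid G` is the assertion of Q1 for the manifolds with fundamental group `G`: closed aspherical
manifolds of dimension at least five with fundamental group `G` are homeomorphic, and every
homotopy equivalence between them is homotopic to a homeomorphism.

`C` is any class of groups with the closure properties `ClosedE C` which contains the Coxeter groups
of finite rank and whose members `G` satisfy `Rigid G`. All this is published for the class of the
groups that satisfy the `K`- and the `L`-theoretic Farrell–Jones conjecture with finite wreath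
products.

The reflection group trick of Davis starts with a compact aspherical manifold `X` with boundary, with
any fundamental group `Q` that has a finite classifying space. It produces a closed aspherical
manifold `M` which retracts onto `X`: the universal covering of `M` is made of copies of the
universal covering of `X`, its boundary being cut into mirrors, and `π₁(M)` is a subgroup of finite
index of `W ⋊ Q`, where `W` is the Coxeter group given by the mirrors of the universal covering of `X`
(infinitely many, in general). The theorem says that `M` is rigid if `Q` is in `C`. More generally it
applies to all groups `Γ` that embed in a group `G = N Q` where the normal subgroup `N` is a Coxeter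
group of arbitrary rank whose simple reflections are permuted by the subgroup `Q` and `G ⧸ N` is in `C`.

Outline of the proof that `G` is in `C`. By the extension criterion and directed colimits it suffices to
embed the subgroup generated by a finite set `E ⊆ N` and `g E g⁻¹` in a group in `C` in which the
conjugation by `g` on `E` is induced by an inner automorphism. Write `g = n q`. The finite partial
automorphism of the Coxeter matrix given by `q` extends to an automorphism `τ` of a larger finite
Coxeter matrix `M'` (the extension property for partial automorphisms of finite labelled graphs).
Coxeter groups embed along embeddings of Coxeter matrices, and one uses the mapping torus of the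
automorphism of finite order of the Coxeter group of `M'` given by `τ`.
-/

set_option autoImplicit false

namespace Pool.Agent.L7h82.ReflectionTrick

open Pool.Agent.Y110.FJ (ClosedE)

/-- all homotopy groups in degrees at least two vanish -/
def Aspherical (M : Type) [TopologicalSpace M] : Prop :=
  ∀ n : ℕ, 2 ≤ n → ∀ x : M, Subsingleton (HomotopyGroup (Fin n) M x)

/-- the fundamental group (at some base point) is isomorphic to `G` -/
def HasGroup (M : Type) [TopologicalSpace M] (G : Type) [Group G] : Prop :=
  ∃ x : M, Nonempty (FundamentalGroup M x ≃* G)

/-- The assertion of Q1 for the closed aspherical manifolds `M`, `N` of dimension at least five whose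
fundamental groups are isomorphic to `G`. -/
def Rigid (G : Type) [Group G] : Prop :=
  ∀ (d e : ℕ), 5 ≤ d → 5 ≤ e →
    ∀ (M N : Type) [TopologicalSpace M] [TopologicalSpace N]
      [T2Space M] [T2Space N] [SecondCountableTopology M] [SecondCountableTopology N]
      [CompactSpace M] [CompactSpace N] [ConnectedSpace M] [ConnectedSpace N]
      [ChartedSpace (EuclideanSpace ℝ (Fin d)) M] [ChartedSpace (EuclideanSpace ℝ (Fin e)) N],
      Aspherical M → Aspherical N → HasGroup M G → HasGroup N G →
      Nonempty (M ≃ₜ N) ∧
        ∀ f : ContinuousMap.HomotopyEquiv M N,
          ∃ h : M ≃ₜ N, ContinuousMap.Homotopic f.toFun (ContinuousMap.mk h h.continuous)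

theorem result (C : ∀ (G : Type) [Group G], Prop) (hC : ClosedE C)
    (hcox : ∀ (S : Type) (_ : Finite S) (A : CoxeterMatrix S), C A.Group)
    (hR : ∀ (G : Type) [Group G], C G → Rigid G)
    (G B : Type) [Group G] (N Q : Subgroup G) [N.Normal] [MulAction Q B]
    (M : CoxeterMatrix B) (cs : CoxeterSystem M N) (hNQ : N ⊔ Q = ⊤)
    (hM : ∀ (q : Q) (b b' : B), M (q • b) (q • b') = M b b')
    (hconj : ∀ (q : Q) (b : B),
      (q : G) * (cs.simple b : G) * (q : G)⁻¹ = (cs.simple (q • b) : G))
    (hQ : C (G ⧸ N)) (Γ : Type) [Group Γ] (i : Γ →* G) (hi : Function.Injective i) :
    C Γ ∧ Rigid Γ :=
  have h := hC.base.of_injective Γ G i hi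
    (Pool.Agent.N77.CX.cox_main cs hC hcox Q hNQ hM hconj hQ)
  ⟨h, hR Γ h⟩

end Pool.Agent.L7h82.ReflectionTrick
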